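import Pool.Agent.Q150.KothH

/-!
# Randomized King of the Hill has the optimal manipulability for every `ε`
-/

namespace Pool.Agent.Results.MP_4400a6_co.RandomizedKing

open Q150.Koth

/-- For every `ε ∈ [0, 1/2]`, `α₂^{RKotH}(𝒯^ε) = ε/3 + 2ε²/3`, and the supremum is attained. -/
theorem result (ε : ℝ) (h0 : 0 ≤ ε) (h1 : ε ≤ 1 / 2) :
    alpha2 rkoth ε = ε / 3 + 2 * ε ^ 2 / 3
      ∧ IsGreatest (gains rkoth ε) (ε / 3 + 2 * ε ^ 2 / 3) :=
  ⟨(isGreatest_gains h0 h1).csSup_eq, isGreatest_gains h0 h1⟩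

end Pool.Agent.Results.MP_4400a6_co.RandomizedKing
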